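import Pool.Agent.helper52.FS.SpecD

/-!
# MP_07c750, project FS, row FQP: the frequencies are porous
-/

open scoped MatrixGroups ContDiff Topology UpperHalfPlane ComplexConjugate
open UpperHalfPlane MeasureTheory Filter Set

set_option autoImplicit false

namespace Pool.Agent.FS

open Pool.Agent.RS
open Pool.Agent.MS (bq BB BA SF pf)
open Pool.Agent.EN (XG MG mkX mkM fl pr)

noncomputable section

theorem FQP_mat (a z : ℝ) (h : 0 < 1 + a * z) :
    lM a * nM z = nM (z / (1 + a * z)) * aM (-2 * Real.log (1 + a * z)) * lM (a / (1 + a * z)) := by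
  have e1 : Real.exp (-2 * Real.log (1 + a * z) / 2) = (1 + a * z)⁻¹ := by
    have : -2 * Real.log (1 + a * z) / 2 = -Real.log (1 + a * z) := by ring
    rw [this, Real.exp_neg, Real.exp_log h]
  have e2 : Real.exp (-(-2 * Real.log (1 + a * z) / 2)) = 1 + a * z := by
    have : -(-2 * Real.log (1 + a * z) / 2) = Real.log (1 + a * z) := by ring
    rw [this, Real.exp_log h]
  have h0 := h.ne'
  apply Subtype.ext
  show (lM a).1 * (nM z).1 = (nM (z / (1 + a * z))).1 * (aM (-2 * Real.log (1 + a * z))).1 * (lM (a / (1 + a * z))).1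
  unfold lM nM aM
  simp only [e1, e2]
  obtain ⟨δ, hδ⟩ : ∃ δ : ℝ, δ = 1 + a * z := ⟨_, rfl⟩
  rw [← hδ] at h0 ⊢
  have hz1 : δ⁻¹ + z / δ * (δ * (a / δ)) = 1 := by
    field_simp
    rw [hδ]
    ring
  ext i j
  fin_cases i <;> fin_cases j
  · simp [Matrix.mul_apply, Fin.sum_univ_two]
    linarith [hz1]
  · simp [Matrix.mul_apply, Fin.sum_univ_two]
    field_simp
  · simp [Matrix.mul_apply, Fin.sum_univ_two]
    field_simp
  · simp [Matrix.mul_apply, Fin.sum_univ_two]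
    rw [hδ]
    ring

/-- the commutation of one point of `JC` -/
theorem FQP_pt (hG : RS.GLC_stmt) (g : SL(2, ℝ)) (a z τ o : ℝ) (h : 0 < 1 + a * z) :
    g * lM a * nM z * aM τ * lM o = g * nM (z / (1 + a * z)) * aM (-2 * Real.log (1 + a * z) + τ) * lM (Real.exp τ * (a / (1 + a * z)) + o) := by
  obtain ⟨-, -, -, -, -, -, -, -, -, -, ha, -, hl, -, -, -, -, -, hla, -⟩ := hG
  have h1 := FQP_mat a z h
  rw [hl, ha]
  calc g * lM a * nM z * aM τ * lM o = g * (lM a * nM z) * aM τ * lM o := by rw [mul_assoc g]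
    _ = g * (nM (z / (1 + a * z)) * aM (-2 * Real.log (1 + a * z)) * lM (a / (1 + a * z))) * aM τ * lM o := by rw [h1]
    _ = g * nM (z / (1 + a * z)) * aM (-2 * Real.log (1 + a * z)) * (lM (a / (1 + a * z)) * aM τ) * lM o := by
        simp only [mul_assoc]
    _ = _ := by
        rw [hla]
        simp only [mul_assoc]

/-- porosity of the frequencies with one sign -/
theorem FQP_one (hG : RS.GLC_stmt) (Γ : Subgroup SL(2, ℝ)) (c R0 C3 κ0 : ℝ) (hc : 0 < c) (hc1 : c < 1) (hR0 : 1 ≤ R0) (hκ : 0 < κ0) (hκ1 : κ0 ≤ 1)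
    (n : ℕ) (Ψ Ψa Ψn Ψl : SL(2, ℝ) → ℝ) (εc l l0 : ℝ) (e g : SL(2, ℝ)) (J : Finset ℤ) (hn1 : 100 ≤ Real.exp n) (hn2 : 1 / c ≤ Real.exp n)
    (hPF : PF Γ c R0 C3 n Ψ Ψa Ψn Ψl) (hε : εc = κ0 * Real.exp (-n)) (hl : 0 ≤ l) (hl0 : l ≤ l0) (hl1 : l0 ≤ εc / 100)
    (hJ : ∀ j ∈ J, |(j : ℝ) * εc| ≤ 3 / 10 ∧ ∃ u ∈ Icc (0 : ℝ) 1, ∃ x τ o : ℝ, |x| ≤ 4 * εc ∧ |τ| ≤ 3 / 5 ∧ |o| ≤ l0 ∧
      Ψ (e * g * lM (l * u) * nM (j * εc + x) * aM τ * lM o * aM (-n)) ≠ 0)
    (R : ℝ) (hR : R0 * Real.pi / (2 * κ0) + 5 * Real.pi / c ≤ R) (hRn : R ≤ Real.exp n) (ξ : ℝ) :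
    ∃ y ∈ Icc ξ (ξ + R), ∀ j ∈ J, c / 2 * R ≤ |Real.pi * j / 2 - y| := by
  have hE : 0 < Real.exp (n : ℝ) := Real.exp_pos _
  have hEi : Real.exp (-(n : ℝ)) = (Real.exp n)⁻¹ := Real.exp_neg _
  have hEp : 0 < Real.exp (-(n : ℝ)) := Real.exp_pos _
  have hεpos : 0 < εc := by rw [hε]; positivity
  have hεle : εc ≤ Real.exp (-(n : ℝ)) := by
    rw [hε]
    nlinarith
  have hE100 : Real.exp (-(n : ℝ)) ≤ 1 / 100 := by
    rw [hEi]
    rw [inv_eq_one_div]
    exact one_div_le_one_div_of_le (by norm_num) hn1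
  have hEc : Real.exp (-(n : ℝ)) ≤ c := by
    rw [hEi, inv_eq_one_div]
    rw [div_le_iff₀ hE]
    rw [div_le_iff₀ hc] at hn2
    linarith
  have hπ := Real.pi_pos
  set s : ℝ := 2 * εc / Real.pi with hs
  have hspos : 0 < s := by rw [hs]; positivity
  have hRpos : 0 < R := by
    have h1 : 0 < R0 * Real.pi / (2 * κ0) := by positivity
    have h2 : 0 < 5 * Real.pi / c := by positivity
    linarith
  have hr1 : R0 * Real.exp (-(n : ℝ)) ≤ R * s := by
    have h1 : R0 * Real.pi / (2 * κ0) ≤ R := by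
      have h2 : 0 < 5 * Real.pi / c := by positivity
      linarith
    rw [div_le_iff₀ (by positivity)] at h1
    have h3 : R * s * Real.pi = R * (2 * κ0) * Real.exp (-(n : ℝ)) := by
      rw [hs, hε]
      field_simp
    have h4 : R0 * Real.pi * Real.exp (-(n : ℝ)) ≤ R * (2 * κ0) * Real.exp (-(n : ℝ)) := mul_le_mul_of_nonneg_right h1 hEp.le
    have h5 : (R0 * Real.exp (-(n : ℝ))) * Real.pi ≤ R * s * Real.pi := by
      rw [h3]
      calc R0 * Real.exp (-(n : ℝ)) * Real.pi = R0 * Real.pi * Real.exp (-(n : ℝ)) := by ring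
        _ ≤ _ := h4
    exact le_of_mul_le_mul_right h5 hπ
  have hr2 : R * s ≤ 1 := by
    have h1 : s ≤ Real.exp (-(n : ℝ)) := by
      rw [hs, div_le_iff₀ hπ]
      have := Real.pi_gt_three
      nlinarith
    calc R * s ≤ Real.exp n * Real.exp (-(n : ℝ)) := mul_le_mul hRn h1 hspos.le hE.le
      _ = 1 := by rw [← Real.exp_add, add_neg_cancel, Real.exp_zero]
  obtain ⟨x, hx, hbw⟩ := hPF.bw (e * g) (R * s) (ξ * s) hr1 hr2
  refine ⟨x / s, ⟨?_, ?_⟩, ?_⟩
  · rw [le_div_iff₀ hspos]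
    exact hx.1
  · rw [div_le_iff₀ hspos]
    have := hx.2
    linarith
  · intro j hj
    obtain ⟨hj1, u, hu, x', τ, o, hx', hτ, ho, hne⟩ := hJ j hj
    have hl' : l ≤ 1 / 10000 := by linarith
    have hz1 : |(j : ℝ) * εc + x'| ≤ 1 / 2 := by
      have := abs_add_le ((j : ℝ) * εc) x'
      linarith
    obtain ⟨z, hz⟩ : ∃ z : ℝ, z = (j : ℝ) * εc + x' := ⟨_, rfl⟩
    rw [← hz] at hz1 hne
    obtain ⟨a, ha⟩ : ∃ a : ℝ, a = l * u := ⟨_, rfl⟩
    rw [← ha] at hne
    have ha0 : 0 ≤ a := by rw [ha]; exact mul_nonneg hl hu.1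
    have hal : a ≤ l := by
      rw [ha]
      have := hu.2
      nlinarith
    have haz : |a * z| ≤ l / 2 := by
      rw [abs_mul, abs_of_nonneg ha0]
      have := abs_nonneg z
      nlinarith
    obtain ⟨haz1, haz2⟩ := abs_le.1 haz
    have hδ : 99 / 100 ≤ 1 + a * z := by linarith
    have hδ2 : 1 + a * z ≤ 101 / 100 := by linarith
    have hδ0 : 0 < 1 + a * z := by linarith
    rw [FQP_pt hG (e * g) a z τ o hδ0] at hne
    by_contra hlt
    push Not at hlt
    apply hne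
    refine hbw _ ?_ _ _ ?_ ?_
    · -- the point `z'`
      have h1 : |z / (1 + a * z) - z| ≤ l := by
        have h2 : z / (1 + a * z) - z = -(z * (a * z)) / (1 + a * z) := by
          rw [eq_div_iff hδ0.ne', sub_mul, div_mul_cancel₀ _ hδ0.ne']
          ring
        rw [h2, abs_div, abs_neg, abs_mul, abs_of_pos hδ0, div_le_iff₀ hδ0]
        have h3 : |z| * |a * z| ≤ 1 / 2 * (l / 2) := mul_le_mul hz1 haz (abs_nonneg _) (by norm_num)
        nlinarith
      have h4 : |(j : ℝ) * εc - x| < c / 2 * (R * s) := by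
        have h5 : (j : ℝ) * εc - x = (Real.pi * j / 2 - x / s) * s := by
          rw [sub_mul, div_mul_cancel₀ _ hspos.ne', hs]
          field_simp
        rw [h5, abs_mul, abs_of_pos hspos]
        calc |Real.pi * (j : ℝ) / 2 - x / s| * s < c / 2 * R * s := mul_lt_mul_of_pos_right hlt hspos
          _ = _ := by ring
      have h6 : 5 * εc ≤ c / 2 * (R * s) := by
        have h7 : 5 * Real.pi / c ≤ R := by
          have h8 : 0 < R0 * Real.pi / (2 * κ0) := by positivity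
          linarith
        rw [div_le_iff₀ hc] at h7
        have h9 : c / 2 * (R * s) * Real.pi = R * c * εc := by
          rw [hs]
          field_simp
        have h10 : 5 * εc * Real.pi ≤ c / 2 * (R * s) * Real.pi := by
          rw [h9]
          nlinarith
        exact le_of_mul_le_mul_right h10 hπ
      have h11 : |z / (1 + a * z) - x| < c * (R * s) := by
        have h12 : z / (1 + a * z) - x = (z / (1 + a * z) - z) + x' + ((j : ℝ) * εc - x) := by
          rw [hz]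
          ring
        rw [h12]
        have h13 := abs_add_le ((z / (1 + a * z) - z) + x') ((j : ℝ) * εc - x)
        have h14 := abs_add_le (z / (1 + a * z) - z) x'
        linarith
      rw [abs_lt] at h11
      exact ⟨by linarith [h11.1], by linarith [h11.2]⟩
    · -- the time
      have h1 : |Real.log (1 + a * z)| ≤ 1 / 20 := by
        rw [abs_le]
        constructor
        · have h2 : 1 - (1 + a * z)⁻¹ ≤ Real.log (1 + a * z) := Real.one_sub_inv_le_log_of_pos hδ0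
          have h3 : (1 + a * z)⁻¹ ≤ 100 / 99 := by
            rw [inv_eq_one_div, div_le_div_iff₀ hδ0 (by norm_num)]
            linarith
          linarith
        · have h2 := Real.log_le_sub_one_of_pos hδ0
          linarith
      have h4 := abs_add_le (-2 * Real.log (1 + a * z)) τ
      have h5 : |-2 * Real.log (1 + a * z)| ≤ 1 / 10 := by
        rw [abs_mul]
        norm_num
        linarith
      linarith
    · have h1 : Real.exp τ ≤ 2 := by
        have h2 : τ ≤ 3 / 5 := (abs_le.1 hτ).2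
        have h3 : Real.exp τ ≤ Real.exp (3 / 5) := Real.exp_le_exp.2 h2
        have h4 : Real.exp (3 / 5) ≤ 2 := by
          have h5 : (3 / 5 : ℝ) ≤ Real.log 2 := by
            have := Real.log_two_gt_d9
            linarith
          calc Real.exp (3 / 5) ≤ Real.exp (Real.log 2) := Real.exp_le_exp.2 h5
            _ = 2 := Real.exp_log (by norm_num)
        linarith
      have h6 : a / (1 + a * z) ≤ l * (100 / 99) := by
        rw [div_le_iff₀ hδ0]
        nlinarith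
      have h7 : 0 ≤ a / (1 + a * z) := by positivity
      have h8 : |Real.exp τ * (a / (1 + a * z))| ≤ 2 * (l * (100 / 99)) := by
        rw [abs_of_nonneg (by positivity)]
        exact mul_le_mul h1 h6 h7 (by norm_num)
      have h9 := abs_add_le (Real.exp τ * (a / (1 + a * z))) o
      linarith

/-- **Row FQP** -/
theorem FQP_proof (hG : RS.GLC_stmt) : FQP_stmt := by
  classical
  intro Γ c R0 C3 κ0 hc hc1 hR0 _ hκ hκ1
  have hπ := Real.pi_pos
  obtain ⟨A, hA⟩ : ∃ A : ℝ, A = R0 * Real.pi / (2 * κ0) + 5 * Real.pi / c := ⟨_, rfl⟩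
  have hA1 : 0 < R0 * Real.pi / (2 * κ0) := by positivity
  have hA2 : 0 < 5 * Real.pi / c := by positivity
  have hA0 : 0 < A := by rw [hA]; linarith
  have hAc : 1 / c ≤ A := by
    have h1 : 1 / c ≤ 5 * Real.pi / c := by
      apply div_le_div_of_nonneg_right _ hc.le
      have := Real.pi_gt_three
      linarith
    rw [hA]
    linarith
  have h4A : A ≤ 4 * A / c := by
    rw [le_div_iff₀ hc]
    nlinarith
  refine ⟨c ^ 2 / 8, 100 + 4 * A / c, by positivity, by nlinarith, ?_, ?_⟩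
  · have : 0 < 4 * A / c := by positivity
    linarith
  intro n Ψ Ψa Ψn Ψl εc l l0 g J hn hPF hε hl hl0 hl1 hJ R hR hRn ξ
  have hn1 : 100 ≤ Real.exp (n : ℝ) := by linarith
  have hn2 : 1 / c ≤ Real.exp (n : ℝ) := by linarith
  -- the two sets of frequencies
  have key : ∀ e : SL(2, ℝ), ∀ R' : ℝ, A ≤ R' → R' ≤ Real.exp n → ∀ ξ' : ℝ, ∃ y ∈ Icc ξ' (ξ' + R'), ∀ j ∈ J,
      (∃ u ∈ Icc (0 : ℝ) 1, ∃ x τ o : ℝ, |x| ≤ 4 * εc ∧ |τ| ≤ 3 / 5 ∧ |o| ≤ l0 ∧
        Ψ (e * g * lM (l * u) * nM (j * εc + x) * aM τ * lM o * aM (-n)) ≠ 0) → c / 2 * R' ≤ |Real.pi * j / 2 - y| := by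
    intro e R' hR'A hR'n ξ'
    obtain ⟨y, hy, hy2⟩ := FQP_one hG Γ c R0 C3 κ0 hc hc1 hR0 hκ hκ1 n Ψ Ψa Ψn Ψl εc l l0 e g
      (J.filter fun j => ∃ u ∈ Icc (0 : ℝ) 1, ∃ x τ o : ℝ, |x| ≤ 4 * εc ∧ |τ| ≤ 3 / 5 ∧ |o| ≤ l0 ∧
        Ψ (e * g * lM (l * u) * nM (j * εc + x) * aM τ * lM o * aM (-n)) ≠ 0) hn1 hn2 hPF hε hl hl0 hl1
      (fun j hj => ⟨(hJ j (Finset.mem_filter.1 hj).1).1, (Finset.mem_filter.1 hj).2⟩) R' (by rw [← hA]; exact hR'A) hR'n ξ'
    exact ⟨y, hy, fun j hj h => hy2 j (Finset.mem_filter.2 ⟨hj, h⟩)⟩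
  have hRA : 4 * A / c ≤ R := by linarith
  have hRpos : 0 < R := by
    have : 0 < 4 * A / c := by positivity
    linarith
  obtain ⟨y1, hy1, hy1J⟩ := key 1 R (by linarith) hRn ξ
  obtain ⟨R2, hR2⟩ : ∃ R2 : ℝ, R2 = c * R / 4 := ⟨_, rfl⟩
  have hR2A : A ≤ R2 := by
    rw [div_le_iff₀ hc] at hRA
    rw [hR2]
    linarith
  have hR2R : R2 ≤ R / 4 := by
    rw [hR2]
    nlinarith
  have hR2n : R2 ≤ Real.exp (n : ℝ) := by linarith
  obtain ⟨v2, hv2a, hv2b, hv2c, hv2d⟩ : ∃ v2 : ℝ, ξ ≤ v2 ∧ v2 + R2 ≤ ξ + R ∧ v2 ≤ y1 ∧ y1 ≤ v2 + R2 := by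
    have hR20 : 0 ≤ R2 := by linarith
    by_cases h : y1 ≤ ξ + R / 2
    · exact ⟨y1, hy1.1, by linarith, le_rfl, by linarith⟩
    · push Not at h
      exact ⟨y1 - R2, by linarith, by linarith [hy1.2], by linarith, by linarith⟩
  obtain ⟨y2, hy2, hy2J⟩ := key (-1) R2 hR2A hR2n v2
  refine ⟨y2, ⟨by linarith [hy2.1], by linarith [hy2.2]⟩, ?_⟩
  intro j hj
  obtain ⟨hj1, u, hu, x, τ, o, e, he, hx, hτ, ho, hne⟩ := hJ j hj
  have hcR : c ^ 2 / 8 * R ≤ c / 4 * R := by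
    apply mul_le_mul_of_nonneg_right _ hRpos.le
    nlinarith
  rcases he with rfl | rfl
  · have h1 := hy1J j hj ⟨u, hu, x, τ, o, hx, hτ, ho, hne⟩
    have h2 : |y2 - y1| ≤ R2 := by
      rw [abs_le]
      exact ⟨by linarith [hy2.1], by linarith [hy2.2]⟩
    have h3 : |Real.pi * j / 2 - y1| ≤ |Real.pi * j / 2 - y2| + |y2 - y1| := by
      have := abs_add_le (Real.pi * j / 2 - y2) (y2 - y1)
      have h4 : Real.pi * j / 2 - y2 + (y2 - y1) = Real.pi * j / 2 - y1 := by ring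
      rwa [h4] at this
    rw [hR2] at h2
    linarith
  · have h1 := hy2J j hj ⟨u, hu, x, τ, o, hx, hτ, ho, hne⟩
    rw [hR2] at h1
    calc c ^ 2 / 8 * R = c / 2 * (c * R / 4) := by ring
      _ ≤ _ := h1

end

end Pool.Agent.FS
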