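import Pool.Agent.helper52.FS.SpecP

/-!
# MP_07c750, project FS, row MUL: products of trigonometric sums
-/

open MeasureTheory Set

set_option autoImplicit false

namespace Pool.Agent.FS

noncomputable section

theorem MUL_proof : MUL_stmt := by
  classical
  intro S T a p
  refine ⟨(S ×ˢ T).image (fun z => z.1 + z.2), fun j => ∑ z ∈ (S ×ˢ T).filter (fun z => z.1 + z.2 = j), a z.1 * p z.2, ?_, ?_⟩
  · intro v
    unfold tp
    have h1 : ∀ i k : ℤ, ee (Real.pi * ((i + k : ℤ) : ℝ) * v / 2) = ee (Real.pi * (i : ℝ) * v / 2) * ee (Real.pi * (k : ℝ) * v / 2) := by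
      intro i k
      unfold ee
      rw [← Complex.exp_add]
      congr 1
      push_cast
      ring
    have h2 : ∀ j : ℤ, (∑ z ∈ (S ×ˢ T).filter (fun z => z.1 + z.2 = j), a z.1 * p z.2) * ee (Real.pi * (j : ℝ) * v / 2) =
        ∑ z ∈ (S ×ˢ T).filter (fun z => z.1 + z.2 = j), (a z.1 * ee (Real.pi * (z.1 : ℝ) * v / 2)) * (p z.2 * ee (Real.pi * (z.2 : ℝ) * v / 2)) := by
      intro j
      rw [Finset.sum_mul]
      refine Finset.sum_congr rfl fun z hz => ?_
      rw [← (Finset.mem_filter.1 hz).2, h1]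
      ring
    simp only [h2]
    rw [Finset.sum_fiberwise_of_maps_to (fun z hz => Finset.mem_image_of_mem _ hz)
      (fun z : ℤ × ℤ => (a z.1 * ee (Real.pi * (z.1 : ℝ) * v / 2)) * (p z.2 * ee (Real.pi * (z.2 : ℝ) * v / 2)))]
    rw [Finset.sum_product, mul_comm (∑ j ∈ T, _), Finset.sum_mul_sum]
  · intro j hj
    obtain ⟨z, hz, hzj⟩ := Finset.mem_image.1 hj
    rw [Finset.mem_product] at hz
    exact ⟨z.1, hz.1, z.2, hz.2, hzj.symm⟩

end

end Pool.Agent.FS
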